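import Pool.Agent.helper77.BND.SpecY

/-!
# Project bnd (MP_376aaf_an), row YLM: loops in the orbit-breaking algebra
-/

set_option autoImplicit false

open scoped Topology Matrix
open Filter

namespace Pool.Agent.BND

open Pool.Agent.CZ Pool.Agent.PV

theorem YLM : YLM_stmt := by
  intro X _ _ A _ ι u xs AY hO f g k hgk
  have hι : Continuous ι := AddMonoidHomClass.continuous_of_bound ι 1 fun x => by
    rw [one_mul]
    exact NonUnitalStarAlgHom.norm_apply_le ι x
  have hmem : ∀ t, ι (f t) + ι (g t) * (u : A) + star (u : A) * ι (k t) ∈ AY := by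
    intro t
    refine AY.add_mem (AY.add_mem (hO.fn _) (hO.upm _ ?_)) (hO.dnm _ ?_)
    · exact hgk.mono fun x hx => (hx t).1
    · exact hgk.mono fun x hx => (hx t).2
  have hc : Continuous fun t : UnitAddCircle =>
      ι (f t) + ι (g t) * (u : A) + star (u : A) * ι (k t) :=
    ((hι.comp f.continuous).add ((hι.comp g.continuous).mul continuous_const)).add
      (continuous_const.mul (hι.comp k.continuous))
  exact ⟨⟨fun t => ⟨_, hmem t⟩, hc.subtype_mk hmem⟩, fun t => rfl⟩

end Pool.Agent.BND
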